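import Pool.Agent.Y823.LW.Series

/-!
# The integers and exponents of the family

Eight positive integers `aZ t` and eight nonzero integers `b t` with `∏ a ^ b = exp (F t)`; padding by
factors `1 ^ 1` gives every number `m ≥ 8` of factors.
-/

set_option autoImplicit false

open Finset

namespace Pool.Agent.Y823.LW

/-- The eight positive integers at the parameter `t`. -/
def aZ (t : ℤ) : Fin 8 → ℤ :=
  ![t - 60, t + 60, t - 30, t + 30, t^2 - 540, t^2 - 2250, t^2 - 3300, t]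

/-- The eight integer exponents at the parameter `t`. -/
def b (t : ℤ) : Fin 8 → ℤ :=
  ![5148297 * t + (-308224840), (-5148297) * t + (-308224840),
    (-10296594) * t + 409003595, 10296594 * t + 409003595,
    -144375000, 70467584, 31788045, -117318768]

theorem tsqZ (t : ℤ) (ht : 10^7 ≤ t) : (10:ℤ)^14 ≤ t^2 := by
  calc (10:ℤ)^14 = (10^7)^2 := by norm_num
    _ ≤ t^2 := pow_le_pow_left₀ (by norm_num) ht 2

theorem aZ_pos (t : ℤ) (ht : 10^7 ≤ t) (j : Fin 8) : 0 < aZ t j := by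
  have h := tsqZ t ht
  fin_cases j <;> simp [aZ] <;> linarith

theorem b_ne (t : ℤ) (ht : 10^7 ≤ t) (j : Fin 8) : b t j ≠ 0 := by
  fin_cases j <;> simp [b] <;> omega

theorem sum_eq (t : ℤ) :
    ∑ j, ((b t j : ℤ) : ℝ) * Real.log ((aZ t j : ℤ) : ℝ) = F (t : ℝ) := by
  unfold F
  simp only [Fin.sum_univ_succ, Fin.sum_univ_zero]
  simp [aZ, b, Fin.succ]
  ring

theorem prod_eq (t : ℤ) (ht : 10^7 ≤ t) :
    ∏ j, ((aZ t j : ℤ) : ℝ) ^ (b t j) = Real.exp (F (t : ℝ)) := by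
  rw [← sum_eq t, Real.exp_sum]
  refine Finset.prod_congr rfl fun j _ => ?_
  have h : (0:ℝ) < ((aZ t j : ℤ) : ℝ) := by exact_mod_cast aZ_pos t ht j
  rw [← Real.rpow_intCast, Real.rpow_def_of_pos h, mul_comm]

theorem prodA_le (t : ℤ) (ht : 10^7 ≤ t) :
    ∏ j, |((aZ t j : ℤ) : ℝ)| ≤ 16 * (t:ℝ)^11 := by
  have h : (10:ℝ)^7 ≤ (t:ℝ) := by exact_mod_cast ht
  have hp : ∀ j, (0:ℝ) < ((aZ t j : ℤ) : ℝ) := fun j => by exact_mod_cast aZ_pos t ht j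
  have habs : ∏ j, |((aZ t j : ℤ) : ℝ)| = ∏ j, ((aZ t j : ℤ) : ℝ) :=
    Finset.prod_congr rfl fun j _ => abs_of_pos (hp j)
  rw [habs]
  have h0 : ((aZ t 0 : ℤ) : ℝ) ≤ 2 * t := by simp [aZ]; linarith
  have h1 : ((aZ t 1 : ℤ) : ℝ) ≤ 2 * t := by simp [aZ]; linarith
  have h2 : ((aZ t 2 : ℤ) : ℝ) ≤ 2 * t := by simp [aZ]; linarith
  have h3 : ((aZ t 3 : ℤ) : ℝ) ≤ 2 * t := by simp [aZ]; linarith
  have h4 : ((aZ t 4 : ℤ) : ℝ) ≤ (t:ℝ)^2 := by simp [aZ]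
  have h5 : ((aZ t 5 : ℤ) : ℝ) ≤ (t:ℝ)^2 := by simp [aZ]
  have h6 : ((aZ t 6 : ℤ) : ℝ) ≤ (t:ℝ)^2 := by simp [aZ]
  have h7 : ((aZ t 7 : ℤ) : ℝ) ≤ (t:ℝ) := by simp [aZ]
  have p0 := (hp 0).le
  have p1 := (hp 1).le
  have p2 := (hp 2).le
  have p3 := (hp 3).le
  have p4 := (hp 4).le
  have p5 := (hp 5).le
  have p6 := (hp 6).le
  have p7 := (hp 7).le
  rw [Fin.prod_univ_eight]
  calc _ ≤ (2 * (t:ℝ)) * (2 * (t:ℝ)) * (2 * (t:ℝ)) * (2 * (t:ℝ)) * (t:ℝ)^2 * (t:ℝ)^2 * (t:ℝ)^2 *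
        (t:ℝ) := by
        gcongr
    _ = 16 * (t:ℝ)^11 := by ring

theorem absb (t : ℤ) (ht : 10^7 ≤ t) (j : Fin 8) (hj : (j:ℕ) < 4) :
    |((b t j : ℤ) : ℝ)| ≤ 10^8 * (t:ℝ) := by
  have h : (10:ℝ)^7 ≤ (t:ℝ) := by exact_mod_cast ht
  rw [abs_le]
  fin_cases j <;> simp at hj <;> simp [b] <;> constructor <;> linarith

theorem absb2 (t : ℤ) (j : Fin 8) (hj : 4 ≤ (j:ℕ)) :
    |((b t j : ℤ) : ℝ)| ≤ 10^9 := by
  rw [abs_le]
  fin_cases j <;> simp at hj <;> simp [b] <;> constructor <;> norm_num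

theorem prodB_le (t : ℤ) (ht : 10^7 ≤ t) :
    ∏ j, |((b t j : ℤ) : ℝ)| ≤ 10^68 * (t:ℝ)^4 := by
  have h0 := absb t ht 0 (by decide)
  have h1 := absb t ht 1 (by decide)
  have h2 := absb t ht 2 (by decide)
  have h3 := absb t ht 3 (by decide)
  have h4 := absb2 t 4 (by decide)
  have h5 := absb2 t 5 (by decide)
  have h6 := absb2 t 6 (by decide)
  have h7 := absb2 t 7 (by decide)
  rw [Fin.prod_univ_eight]
  calc _ ≤ (10^8 * (t:ℝ)) * (10^8 * (t:ℝ)) * (10^8 * (t:ℝ)) * (10^8 * (t:ℝ)) * 10^9 * 10^9 * 10^9 *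
        10^9 := by
        gcongr
    _ = 10^68 * (t:ℝ)^4 := by ring

/-- the exponents for `m = 8 + k` factors -/
def bP (k : ℕ) (t : ℤ) : Fin (8 + k) → ℤ := Fin.append (b t) (fun _ => 1)

/-- the integers for `m = 8 + k` factors -/
def aP (k : ℕ) (t : ℤ) : Fin (8 + k) → ℤ := Fin.append (aZ t) (fun _ => 1)

theorem aP_pos (k : ℕ) (t : ℤ) (ht : 10^7 ≤ t) (j : Fin (8 + k)) : 0 < aP k t j := by
  refine Fin.addCases (fun i => ?_) (fun i => ?_) j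
  · rw [aP, Fin.append_left]; exact aZ_pos t ht i
  · rw [aP, Fin.append_right]; norm_num

theorem bP_ne (k : ℕ) (t : ℤ) (ht : 10^7 ≤ t) (j : Fin (8 + k)) : bP k t j ≠ 0 := by
  refine Fin.addCases (fun i => ?_) (fun i => ?_) j
  · rw [bP, Fin.append_left]; exact b_ne t ht i
  · rw [bP, Fin.append_right]; norm_num

theorem prodP (k : ℕ) (t : ℤ) (ht : 10^7 ≤ t) :
    ∏ j, ((aP k t j : ℤ) : ℝ) ^ (bP k t j) = Real.exp (F (t : ℝ)) := by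
  rw [Fin.prod_univ_add]
  simp only [aP, bP, Fin.append_left, Fin.append_right]
  rw [prod_eq t ht]
  simp

/-- the product of all `|b_j|` and all `|a_j|` -/
theorem sizeP (k : ℕ) (t : ℤ) :
    (∏ j, |((bP k t j : ℤ) : ℝ)|) * (∏ j, |((aP k t j : ℤ) : ℝ)|) =
      (∏ j, |((b t j : ℤ) : ℝ)|) * (∏ j, |((aZ t j : ℤ) : ℝ)|) := by
  rw [Fin.prod_univ_add, Fin.prod_univ_add (f := fun j => |((aP k t j : ℤ) : ℝ)|)]
  simp only [aP, bP, Fin.append_left, Fin.append_right]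
  simp

theorem size_le (k : ℕ) (t : ℤ) (ht : 10^7 ≤ t) :
    (∏ j, |((bP k t j : ℤ) : ℝ)|) * (∏ j, |((aP k t j : ℤ) : ℝ)|) ≤ 10^70 * (t:ℝ)^15 := by
  have h : (10:ℝ)^7 ≤ (t:ℝ) := by exact_mod_cast ht
  have ht0 : (0:ℝ) < t := lt_of_lt_of_le (by norm_num) h
  rw [sizeP]
  have h1 := prodB_le t ht
  have h2 := prodA_le t ht
  calc _ ≤ (10^68 * (t:ℝ)^4) * (16 * (t:ℝ)^11) := by
        apply mul_le_mul h1 h2
        · exact Finset.prod_nonneg fun _ _ => abs_nonneg _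
        · positivity
    _ = (16 * 10^68) * (t:ℝ)^15 := by ring
    _ ≤ 10^70 * (t:ℝ)^15 := by
        gcongr
        norm_num

theorem le_size (k : ℕ) (t : ℤ) (ht : 10^7 ≤ t) :
    (t:ℝ) ≤ (∏ j, |((bP k t j : ℤ) : ℝ)|) * (∏ j, |((aP k t j : ℤ) : ℝ)|) := by
  have h : (10:ℝ)^7 ≤ (t:ℝ) := by exact_mod_cast ht
  have hA1 : ∀ j, (1:ℝ) ≤ |((aZ t j : ℤ) : ℝ)| := by
    intro j
    have := aZ_pos t ht j
    rw [← Int.cast_abs]
    exact_mod_cast Int.one_le_abs this.ne'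
  have hB1 : ∀ j, (1:ℝ) ≤ |((b t j : ℤ) : ℝ)| := by
    intro j
    rw [← Int.cast_abs]
    exact_mod_cast Int.one_le_abs (b_ne t ht j)
  have h7 : |((aZ t 7 : ℤ) : ℝ)| = t := by
    rw [abs_of_pos (by exact_mod_cast aZ_pos t ht 7)]
    simp [aZ]
  rw [sizeP]
  have e1 : (1:ℝ) ≤ ∏ j, |((b t j : ℤ) : ℝ)| := by
    calc (1:ℝ) = ∏ _j : Fin 8, (1:ℝ) := by simp
      _ ≤ _ := Finset.prod_le_prod (fun _ _ => by norm_num) (fun j _ => hB1 j)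
  have e2 : (t:ℝ) ≤ ∏ j, |((aZ t j : ℤ) : ℝ)| := by
    rw [Fin.prod_univ_castSucc]
    have e3 : (1:ℝ) ≤ ∏ j : Fin 7, |((aZ t j.castSucc : ℤ) : ℝ)| := by
      calc (1:ℝ) = ∏ _j : Fin 7, (1:ℝ) := by simp
        _ ≤ _ := Finset.prod_le_prod (fun _ _ => by norm_num) (fun j _ => hA1 _)
    have e4 : |((aZ t (Fin.last 7) : ℤ) : ℝ)| = t := h7
    rw [e4]
    nlinarith
  nlinarith

theorem le_sup (k : ℕ) (t : ℤ) (ht : 10^7 ≤ t) :
    (t:ℝ) ≤ ((Finset.univ.sup fun j => (bP k t j).natAbs : ℕ) : ℝ) := by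
  have h1 : (bP k t (Fin.castAdd k 0)).natAbs ≤ (Finset.univ.sup fun j => (bP k t j).natAbs) :=
    Finset.le_sup (f := fun j => (bP k t j).natAbs) (Finset.mem_univ _)
  have h2 : bP k t (Fin.castAdd k 0) = 5148297 * t + (-308224840) := by
    rw [bP, Fin.append_left]
    simp [b]
  rw [h2] at h1
  have h3 : t ≤ ((5148297 * t + (-308224840)).natAbs : ℤ) := by omega
  have h4 : t ≤ ((Finset.univ.sup fun j => (bP k t j).natAbs : ℕ) : ℤ) :=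
    h3.trans (by exact_mod_cast h1)
  exact_mod_cast h4

/-- the family, with all estimates -/
theorem core (k : ℕ) (t : ℤ) (ht : 10^7 ≤ t) :
    (∀ j, 0 < aP k t j) ∧ (∀ j, bP k t j ≠ 0) ∧
    (∏ j, ((aP k t j : ℤ) : ℝ) ^ (bP k t j)) ≠ 1 ∧
    (t:ℝ) ≤ (∏ j, |((bP k t j : ℤ) : ℝ)|) * (∏ j, |((aP k t j : ℤ) : ℝ)|) ∧
    |(∏ j, ((aP k t j : ℤ) : ℝ) ^ (bP k t j)) - 1| ≤ 10^120 /
      ((∏ j, |((bP k t j : ℤ) : ℝ)|) * (∏ j, |((aP k t j : ℤ) : ℝ)|)) ^ (16/15 : ℝ) ∧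
    ((∏ j, |((bP k t j : ℤ) : ℝ)|) * (∏ j, |((aP k t j : ℤ) : ℝ)|)) ^ (1/15 : ℝ) ≤
      10^5 * ((Finset.univ.sup fun j => (bP k t j).natAbs : ℕ) : ℝ) := by
  have h : (10:ℝ)^7 ≤ (t:ℝ) := by exact_mod_cast ht
  have ht0 : (0:ℝ) < t := lt_of_lt_of_le (by norm_num) h
  have hF := F_pos (t:ℝ) h
  have hs := size_le k t ht
  have hl := le_size k t ht
  have hB := le_sup k t ht
  generalize hX : (∏ j, |((bP k t j : ℤ) : ℝ)|) * (∏ j, |((aP k t j : ℤ) : ℝ)|) = X at *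
  generalize ((Finset.univ.sup fun j => (bP k t j).natAbs : ℕ) : ℝ) = B at *
  have hX0 : 0 < X := lt_of_lt_of_le ht0 hl
  have hroot : X ^ (1/15 : ℝ) ≤ 10^5 * t := by
    have e1 : X ≤ (10^5 * (t:ℝ)) ^ 15 := by
      calc X ≤ 10^70 * (t:ℝ)^15 := hs
        _ ≤ 10^75 * (t:ℝ)^15 := by
            gcongr
            · norm_num
            · norm_num
        _ = (10^5 * (t:ℝ)) ^ 15 := by ring
    calc X ^ (1/15 : ℝ) ≤ ((10^5 * (t:ℝ)) ^ 15) ^ (1/15 : ℝ) :=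
          Real.rpow_le_rpow hX0.le e1 (by norm_num)
      _ = 10^5 * t := by
          rw [← Real.rpow_natCast, ← Real.rpow_mul (by positivity)]
          norm_num
  refine ⟨aP_pos k t ht, bP_ne k t ht, ?_, hl, ?_, ?_⟩
  · rw [prodP k t ht]
    intro h1
    rw [Real.exp_eq_one_iff] at h1
    exact hF.1.ne' h1
  · rw [prodP k t ht]
    have hF1 : F t ≤ 1 := by
      refine hF.2.trans ?_
      rw [div_le_one (by positivity)]
      calc (10:ℝ)^32 ≤ (10^7)^16 := by norm_num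
        _ ≤ (t:ℝ)^16 := by gcongr
    have hexp : |Real.exp (F t) - 1| ≤ 2 * (10^32 / (t:ℝ)^16) := by
      have h1 : |F t| ≤ 1 := by rw [abs_of_pos hF.1]; exact hF1
      have h2 := Real.abs_exp_sub_one_le h1
      rw [abs_of_pos hF.1] at h2
      linarith [hF.2]
    refine hexp.trans ?_
    have e2 : X ^ (16/15 : ℝ) ≤ (10^5 * t)^16 := by
      have e3 : X ^ (16/15 : ℝ) = (X ^ (1/15 : ℝ)) ^ 16 := by
        rw [← Real.rpow_natCast, ← Real.rpow_mul hX0.le]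
        norm_num
      rw [e3]
      gcongr
    have hXp : 0 < X ^ (16/15 : ℝ) := Real.rpow_pos_of_pos hX0 _
    rw [← mul_div_assoc, div_le_div_iff₀ (by positivity) hXp]
    calc 2 * 10^32 * X ^ (16/15 : ℝ) ≤ 2 * 10^32 * (10^5 * t)^16 := by gcongr
      _ = (2 * 10^112) * (t:ℝ)^16 := by ring
      _ ≤ 10^120 * (t:ℝ)^16 := by
          gcongr
          norm_num
  · calc X ^ (1/15 : ℝ) ≤ 10^5 * t := hroot
      _ ≤ 10^5 * B := by gcongr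

end Pool.Agent.Y823.LW
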