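import Mathlib

/-!
# A family of linear forms in eight logarithms

`F t = ∑ b_j(t) log a_j(t)` with `a_j = t ∓ 60, t ∓ 30, t² - 540, t² - 2250, t² - 3300, t` and
`b_j` linear in `t` for the first four and constant for the others; `F t` is about `c / t ^ 16`.
-/

set_option autoImplicit false

open Finset

namespace Pool.Agent.Y823.LW

/-- Truncated odd series. -/
theorem odd_bound (x : ℝ) (h0 : 0 < x) (h1 : x ≤ 1/2) :
    |Real.log (1+x) - Real.log (1-x)
      - 2 * (x + x^3/3 + x^5/5 + x^7/7 + x^9/9 + x^11/11 + x^13/13 + x^15/15 + x^17/17)|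
      ≤ 4 * x^19 := by
  have hx1 : |x| < 1 := by rw [abs_of_pos h0]; linarith
  have hx2 : |(-x)| < 1 := by rw [abs_neg]; exact hx1
  have e1 := Real.abs_log_sub_add_sum_range_le hx1 18
  have e2 := Real.abs_log_sub_add_sum_range_le hx2 18
  rw [abs_neg] at e2
  rw [abs_of_pos h0] at e1 e2
  have e3 : x ^ (18+1) / (1 - x) ≤ 2 * x^19 := by
    rw [div_le_iff₀ (by linarith)]
    have h3 : 0 < x^19 := by positivity
    have h4 : x ^ (18+1) = x^19 := by norm_num
    rw [h4]
    nlinarith [mul_nonneg h3.le (by linarith : (0:ℝ) ≤ 1/2 - x)]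
  simp only [Finset.sum_range_succ, Finset.sum_range_zero] at e1 e2
  rw [sub_neg_eq_add] at e2
  rw [abs_le] at e1 e2 ⊢
  push_cast at e1 e2
  norm_num at e1 e2
  norm_num at e3
  constructor
  · linarith [e1.1, e1.2, e2.1, e2.2]
  · linarith [e1.1, e1.2, e2.1, e2.2]

/-- Truncated even series. -/
theorem even_bound (y : ℝ) (h0 : 0 < y) (h1 : y ≤ 1/2) :
    |Real.log (1-y) - (-(y + y^2/2 + y^3/3 + y^4/4 + y^5/5 + y^6/6 + y^7/7 + y^8/8))|
      ≤ 2 * y^9 := by
  have hx1 : |y| < 1 := by rw [abs_of_pos h0]; linarith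
  have e1 := Real.abs_log_sub_add_sum_range_le hx1 8
  rw [abs_of_pos h0] at e1
  have e3 : y ^ (8+1) / (1 - y) ≤ 2 * y^9 := by
    rw [div_le_iff₀ (by linarith)]
    have h3 : 0 < y^9 := by positivity
    have h4 : y ^ (8+1) = y^9 := by norm_num
    rw [h4]
    nlinarith [mul_nonneg h3.le (by linarith : (0:ℝ) ≤ 1/2 - y)]
  simp only [Finset.sum_range_succ, Finset.sum_range_zero] at e1
  rw [abs_le] at e1 ⊢
  push_cast at e1
  norm_num at e1
  norm_num at e3
  constructor
  · linarith [e1.1, e1.2]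
  · linarith [e1.1, e1.2]

theorem main_identity (t : ℝ) (ht : t ≠ 0) :
    (-5148297) * t * (2 * (60/t + (60/t)^3/3 + (60/t)^5/5 + (60/t)^7/7 + (60/t)^9/9 + (60/t)^11/11 + (60/t)^13/13 + (60/t)^15/15 + (60/t)^17/17))
    + (10296594) * t * (2 * (30/t + (30/t)^3/3 + (30/t)^5/5 + (30/t)^7/7 + (30/t)^9/9 + (30/t)^11/11 + (30/t)^13/13 + (30/t)^15/15 + (30/t)^17/17))
    + (-308224840) * (-(3600/t^2 + (3600/t^2)^2/2 + (3600/t^2)^3/3 + (3600/t^2)^4/4 + (3600/t^2)^5/5 + (3600/t^2)^6/6 + (3600/t^2)^7/7 + (3600/t^2)^8/8))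
    + (409003595) * (-(900/t^2 + (900/t^2)^2/2 + (900/t^2)^3/3 + (900/t^2)^4/4 + (900/t^2)^5/5 + (900/t^2)^6/6 + (900/t^2)^7/7 + (900/t^2)^8/8))
    + (-144375000) * (-(540/t^2 + (540/t^2)^2/2 + (540/t^2)^3/3 + (540/t^2)^4/4 + (540/t^2)^5/5 + (540/t^2)^6/6 + (540/t^2)^7/7 + (540/t^2)^8/8))
    + (70467584) * (-(2250/t^2 + (2250/t^2)^2/2 + (2250/t^2)^3/3 + (2250/t^2)^4/4 + (2250/t^2)^5/5 + (2250/t^2)^6/6 + (2250/t^2)^7/7 + (2250/t^2)^8/8))
    + (31788045) * (-(3300/t^2 + (3300/t^2)^2/2 + (3300/t^2)^3/3 + (3300/t^2)^4/4 + (3300/t^2)^5/5 + (3300/t^2)^6/6 + (3300/t^2)^7/7 + (3300/t^2)^8/8)) =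
    27185056028987472000000000000000 / t^16 := by
  field_simp
  ring

/-- The value of the linear form at a real number `t`. -/
noncomputable def F (t : ℝ) : ℝ :=
  (5148297 * t + (-308224840)) * Real.log (t - 60)
    + ((-5148297) * t + (-308224840)) * Real.log (t + 60)
    + ((-10296594) * t + (409003595)) * Real.log (t - 30)
    + (10296594 * t + (409003595)) * Real.log (t + 30)
    + (-144375000) * Real.log (t^2 - 540)
    + (70467584) * Real.log (t^2 - 2250)
    + (31788045) * Real.log (t^2 - 3300)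
    + (-117318768) * Real.log t

theorem log_sub_eq (t s : ℝ) (ht : 0 < t) (hs : s < t) :
    Real.log (t - s) = Real.log t + Real.log (1 - s/t) := by
  have h : t - s = t * (1 - s/t) := by field_simp
  have h2 : 0 < 1 - s/t := by
    have : s / t < 1 := by rw [div_lt_one ht]; exact hs
    linarith
  rw [h, Real.log_mul ht.ne' h2.ne']

theorem log_add_eq (t s : ℝ) (ht : 0 < t) (hs : 0 < s) :
    Real.log (t + s) = Real.log t + Real.log (1 + s/t) := by
  have h : t + s = t * (1 + s/t) := by field_simp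
  have h2 : 0 < 1 + s/t := by positivity
  rw [h, Real.log_mul ht.ne' h2.ne']

theorem log_sq_sub_eq (t S : ℝ) (ht : 0 < t) (hs : S < t^2) :
    Real.log (t^2 - S) = 2 * Real.log t + Real.log (1 - S/t^2) := by
  have h := log_sub_eq (t^2) S (by positivity) hs
  rw [h, Real.log_pow]
  push_cast
  ring

theorem log_one_sub_sq (t s : ℝ) (ht : 0 < t) (hs : 0 < s) (hst : s < t) :
    Real.log (1 - s^2/t^2) = Real.log (1 - s/t) + Real.log (1 + s/t) := by
  have h2 : 0 < 1 - s/t := by
    have : s / t < 1 := by rw [div_lt_one ht]; exact hst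
    linarith
  have h3 : 0 < 1 + s/t := by positivity
  rw [← Real.log_mul h2.ne' h3.ne']
  congr 1
  field_simp
  ring

theorem F_eq (t : ℝ) (ht : 10^7 ≤ t) :
    F t = (-5148297) * t * (Real.log (1 + 60/t) - Real.log (1 - 60/t))
    + (10296594) * t * (Real.log (1 + 30/t) - Real.log (1 - 30/t))
    + (-308224840) * Real.log (1 - 3600/t^2)
    + (409003595) * Real.log (1 - 900/t^2)
    + (-144375000) * Real.log (1 - 540/t^2)
    + (70467584) * Real.log (1 - 2250/t^2)
    + (31788045) * Real.log (1 - 3300/t^2) := by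
  have ht0 : 0 < t := lt_of_lt_of_le (by norm_num) ht
  have ht2 : (10:ℝ)^14 ≤ t^2 := by
    calc (10:ℝ)^14 = (10^7)^2 := by norm_num
      _ ≤ t^2 := by gcongr
  have h1 : (3600:ℝ) = 60^2 := by norm_num
  have h2 : (900:ℝ) = 30^2 := by norm_num
  rw [h1, h2, log_one_sub_sq t 60 ht0 (by norm_num) (by linarith),
    log_one_sub_sq t 30 ht0 (by norm_num) (by linarith)]
  unfold F
  rw [log_sub_eq t 60 ht0 (by linarith), log_add_eq t 60 ht0 (by norm_num),
    log_sub_eq t 30 ht0 (by linarith), log_add_eq t 30 ht0 (by norm_num),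
    log_sq_sub_eq t 540 ht0 (by linarith), log_sq_sub_eq t 2250 ht0 (by linarith),
    log_sq_sub_eq t 3300 ht0 (by linarith)]
  ring

theorem term_bound (c l p e K : ℝ) (h : |l - p| ≤ e) (hc : |c| ≤ K) (hK : 0 ≤ K) :
    |c * l - c * p| ≤ K * e := by
  rw [← mul_sub, abs_mul]
  exact mul_le_mul hc h (abs_nonneg _) hK

theorem F_est (t : ℝ) (ht : 10^7 ≤ t) :
    |F t - 27185056028987472000000000000000 / t^16| ≤ 10^44 / t^18 := by
  have ht0 : 0 < t := lt_of_lt_of_le (by norm_num) ht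
  have ht2 : (10:ℝ)^14 ≤ t^2 := by
    calc (10:ℝ)^14 = (10^7)^2 := by norm_num
      _ ≤ t^2 := by gcongr
  have hid := main_identity t ht0.ne'
  have e0 := term_bound ((-5148297) * t) _ _ _ (10^8 * t) (odd_bound (60/t) (by positivity) (by rw [div_le_iff₀ ht0]; linarith)) (by rw [abs_le]; constructor <;> linarith) (by positivity)
  have e1 := term_bound ((10296594) * t) _ _ _ (10^8 * t) (odd_bound (30/t) (by positivity) (by rw [div_le_iff₀ ht0]; linarith)) (by rw [abs_le]; constructor <;> linarith) (by positivity)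
  have e2 := term_bound (-308224840) _ _ _ (10^9) (even_bound (3600/t^2) (by positivity) (by rw [div_le_iff₀ (by positivity)]; linarith)) (by rw [abs_le]; constructor <;> norm_num) (by positivity)
  have e3 := term_bound (409003595) _ _ _ (10^9) (even_bound (900/t^2) (by positivity) (by rw [div_le_iff₀ (by positivity)]; linarith)) (by rw [abs_le]; constructor <;> norm_num) (by positivity)
  have e4 := term_bound (-144375000) _ _ _ (10^9) (even_bound (540/t^2) (by positivity) (by rw [div_le_iff₀ (by positivity)]; linarith)) (by rw [abs_le]; constructor <;> norm_num) (by positivity)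
  have e5 := term_bound (70467584) _ _ _ (10^9) (even_bound (2250/t^2) (by positivity) (by rw [div_le_iff₀ (by positivity)]; linarith)) (by rw [abs_le]; constructor <;> norm_num) (by positivity)
  have e6 := term_bound (31788045) _ _ _ (10^9) (even_bound (3300/t^2) (by positivity) (by rw [div_le_iff₀ (by positivity)]; linarith)) (by rw [abs_le]; constructor <;> norm_num) (by positivity)
  have f0 : 10^8 * t * (4 * (60/t)^19) ≤ (10^43) / t^18 := by
    have : 10^8 * t * (4 * (60/t)^19) = (4 * 10^8 * 60^19) / t^18 := by field_simp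
    rw [this]
    gcongr
    norm_num
  have f1 : 10^8 * t * (4 * (30/t)^19) ≤ (10^43) / t^18 := by
    have : 10^8 * t * (4 * (30/t)^19) = (4 * 10^8 * 30^19) / t^18 := by field_simp
    rw [this]
    gcongr
    norm_num
  have f2 : 10^9 * (2 * (3600/t^2)^9) ≤ (10^43) / t^18 := by
    have : 10^9 * (2 * ((3600:ℝ)/t^2)^9) = (2 * 10^9 * 3600^9) / t^18 := by field_simp
    rw [this]
    gcongr
    norm_num
  have f3 : 10^9 * (2 * (900/t^2)^9) ≤ (10^43) / t^18 := by
    have : 10^9 * (2 * ((900:ℝ)/t^2)^9) = (2 * 10^9 * 900^9) / t^18 := by field_simp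
    rw [this]
    gcongr
    norm_num
  have f4 : 10^9 * (2 * (540/t^2)^9) ≤ (10^43) / t^18 := by
    have : 10^9 * (2 * ((540:ℝ)/t^2)^9) = (2 * 10^9 * 540^9) / t^18 := by field_simp
    rw [this]
    gcongr
    norm_num
  have f5 : 10^9 * (2 * (2250/t^2)^9) ≤ (10^43) / t^18 := by
    have : 10^9 * (2 * ((2250:ℝ)/t^2)^9) = (2 * 10^9 * 2250^9) / t^18 := by field_simp
    rw [this]
    gcongr
    norm_num
  have f6 : 10^9 * (2 * (3300/t^2)^9) ≤ (10^43) / t^18 := by
    have : 10^9 * (2 * ((3300:ℝ)/t^2)^9) = (2 * 10^9 * 3300^9) / t^18 := by field_simp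
    rw [this]
    gcongr
    norm_num
  have hfin : 7 * (10^43 / t^18) ≤ 10^44 / t^18 := by
    have h8 : 7 * ((10:ℝ)^43 / t^18) = (7 * 10^43) / t^18 := by ring
    rw [h8]
    gcongr
    norm_num
  rw [F_eq t ht]
  rw [abs_le] at *
  constructor
  · linarith [e0.1, e1.1, e2.1, e3.1, e4.1, e5.1, e6.1]
  · linarith [e0.2, e1.2, e2.2, e3.2, e4.2, e5.2, e6.2]

theorem F_pos (t : ℝ) (ht : 10^7 ≤ t) : 0 < F t ∧ F t ≤ 10^32 / t^16 := by
  have ht0 : 0 < t := lt_of_lt_of_le (by norm_num) ht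
  have ht2 : (10:ℝ)^14 ≤ t^2 := by
    calc (10:ℝ)^14 = (10^7)^2 := by norm_num
      _ ≤ t^2 := by gcongr
  have h := F_est t ht
  have h2 : (10:ℝ)^44 / t^18 ≤ 10^31 / t^16 := by
    rw [div_le_div_iff₀ (by positivity) (by positivity)]
    have : (10:ℝ)^31 * t^18 = (10^31 * t^2) * t^16 := by ring
    rw [this]
    gcongr
    linarith
  rw [abs_le] at h
  constructor
  · have h3 : (10:ℝ)^31 / t^16 < 27185056028987472000000000000000 / t^16 := by
      gcongr
      norm_num
    linarith [h.1]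
  · have h3 : (27185056028987472000000000000000:ℝ) / t^16 + 10^31 / t^16 ≤ 10^32 / t^16 := by
      rw [← add_div]
      gcongr
      norm_num
    linarith [h.2]

end Pool.Agent.Y823.LW
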